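import Mathlib
import Pool.Agent.W17.WK.All
import Pool.Agent.W223.AK.Data2037

/-!
Few exceptions to the weak abc inequality over a number field.

For every number field `K` of degree `d` and every `κ > 1` the number of the `x ∈ K`, `x ≠ 0, 1`,
of height `H(x) ≤ B` with `h(x) ≥ κ (cond(x) + cond(1/x) + cond(x - 1)) - c` is
`O(B ^ (d min(4 / (7 κ), 20 / 37) + ε))`.
-/

set_option autoImplicit false

namespace Pool.Agent.Results.MP_f5a5f7_nt.FewExceptions

open NumberField IsDedekindDomain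

/-- the absolute logarithmic Weil height `h(x)` -/
noncomputable def height {K : Type} [Field K] [NumberField K] (x : K) : ℝ :=
  (1 / (Module.finrank ℚ K : ℝ)) *
    ((∑ w : InfinitePlace K, (w.mult : ℝ) * Real.log (max 1 (w x))) +
      ∑ᶠ v : HeightOneSpectrum (RingOfIntegers K), Real.log (max 1 (FinitePlace.mk v x)))

/-- the conductor `cond(x)`: the sum of `log N(v) / [K : ℚ]` over the primes `v` at which `x` has a
positive valuation -/
noncomputable def cond {K : Type} [Field K] [NumberField K] (x : K) : ℝ :=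
  (1 / (Module.finrank ℚ K : ℝ)) *
    (∑ᶠ v : HeightOneSpectrum (RingOfIntegers K),
      (if FinitePlace.mk v x < 1 then Real.log (Ideal.absNorm v.asIdeal : ℝ) else 0))

/-- the set of the `x ∈ K`, `x ≠ 0, 1`, of height `H(x) = exp h(x) ≤ B`, with
`κ (cond(x) + cond(1/x) + cond(x - 1)) ≤ h(x) + c` -/
def exceptional (K : Type) [Field K] [NumberField K] (κ c B : ℝ) : Set K :=
  {x : K | x ≠ 0 ∧ x ≠ 1 ∧ Real.exp (height x) ≤ B ∧
    κ * (cond x + cond x⁻¹ + cond (x - 1)) ≤ height x + c}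

/-- Let `K` be a number field of degree `d`, `κ > 1` and `c`, `ε > 0` real. Then, for `B ≥ 1`, the
set of the `x ∈ K`, `x ≠ 0, 1`, of height `H(x) ≤ B` with
`h(x) ≥ κ (cond(x) + cond(1/x) + cond(x - 1)) - c` is finite and has
`O(B ^ (d min(4 / (7 κ), 20 / 37) + ε))` elements. -/
theorem result :
    ∀ (K : Type) [Field K] [NumberField K] (κ c ε : ℝ), 1 < κ → 0 < ε →
      ∃ C : ℝ, ∀ B : ℝ, 1 ≤ B → (exceptional K κ c B).Finite ∧
        ((exceptional K κ c B).ncard : ℝ) ≤
          C * B ^ ((Module.finrank ℚ K : ℝ) * min (4 / (7 * κ)) (20 / 37) + ε) := by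
  intro K _ _ κ c ε hκ hε
  have hκ0 : 0 < κ := by linarith
  have hset : ∀ B : ℝ, exceptional K κ c B = Pool.Agent.W17.WK.exceptional K κ c B :=
    fun B => rfl
  have hB1 : Pool.Agent.W17.WK.StmtF K (1 / κ) (20 / 37) := by
    intro T c₀ δ hδ
    obtain ⟨D, hD, h⟩ := Pool.Agent.W108.AK.fin (K := K) (20 / 37) (by norm_num)
      Pool.Agent.W45.AK.uni Pool.Agent.W17.WK.est_all Pool.Agent.W17.WK.db_all
      Pool.Agent.W108.AK.mb Pool.Agent.W223.AK.Data2037.cert T c₀ δ hδ
    refine ⟨D, hD, fun X E hX hE => h X E hX fun x hx => ?_⟩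
    obtain ⟨h1, h2, P, hP, h3⟩ := hE x hx
    refine ⟨h1, h2, P, hP, h3.trans ?_⟩
    have h4 := Pool.Agent.W223.AK.ht_nonneg x
    have h5 : 1 / κ ≤ 1 := by
      rw [div_le_one hκ0]
      exact hκ.le
    nlinarith
  have key : Pool.Agent.W17.WK.StmtF K (1 / κ) (min (4 / (7 * κ)) (20 / 37)) := by
    rcases le_or_gt (29 / 28) κ with h | h
    · have h1 : Pool.Agent.W17.WK.StmtF K (1 / κ) (4 * (1 / κ) / 7) :=
        Pool.Agent.W17.WK.stmtF K (1 / κ) (by positivity) (by
          rw [div_le_div_iff₀ hκ0 (by norm_num)]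
          linarith)
      have h2 : 4 * (1 / κ) / 7 = 4 / (7 * κ) := by
        field_simp
      rw [h2] at h1
      rcases min_choice (4 / (7 * κ)) (20 / 37 : ℝ) with h3 | h3
      · rw [h3]; exact h1
      · rw [h3]; exact hB1
    · have h1 : (20 / 37 : ℝ) ≤ 4 / (7 * κ) := by
        rw [div_le_div_iff₀ (by norm_num) (by positivity)]
        linarith
      rw [min_eq_right h1]
      exact hB1
  obtain ⟨C, hC⟩ := Pool.Agent.W17.WK.count_exc hκ0
    (le_min (by positivity) (by norm_num)) key c ε hε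
  refine ⟨C, fun B hB => ?_⟩
  rw [hset]
  exact hC B hB

end Pool.Agent.Results.MP_f5a5f7_nt.FewExceptions
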